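import Pool.Agent.Lib.P5f.FinB
import Pool.Agent.Lib.P5q.ScFin

/-!
# Images of multilinear polynomials on large matrix algebras over arbitrary fields

For every degree `m` there is `N` such that for all `n ≥ N`, every field `K` (of any
characteristic, finite or infinite) and every nonzero multilinear polynomial `f` of degree `m` over
`K`, the image of `f` on `M_n(K)` contains all matrices of trace zero; it is equal to this set if
all values of `f` have trace zero, and otherwise it contains all non-scalar matrices (and all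
matrices if `K` is algebraically closed).
-/

namespace Pool.Agent.Results.MP_5e96a2_al.AllFields

open Matrix

universe u

theorem lift_eq {K : Type*} [Field K] {m n : ℕ} (c : Equiv.Perm (Fin m) → K)
    (A : Fin m → Matrix (Fin n) (Fin n) K) :
    FreeAlgebra.lift K A (∑ σ : Equiv.Perm (Fin m),
      c σ • (List.ofFn (fun i : Fin m => FreeAlgebra.ι K (σ i))).prod) =
      Pool.Agent.P5e96.mval c A := by
  rw [Pool.Agent.P5e96.mval, map_sum]
  refine Finset.sum_congr rfl fun σ _ => ?_
  rw [map_smul, map_list_prod, List.map_ofFn]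
  congr 2
  simp [Function.comp_def]

/-- Multilinear polynomials of degree one attain everything. -/
theorem degree_one {K : Type*} [Field K] {n : ℕ} (c : Equiv.Perm (Fin (0 + 1)) → K) (hc : c ≠ 0)
    (B : Matrix (Fin n) (Fin n) K) :
    ∃ A : Fin (0 + 1) → Matrix (Fin n) (Fin n) K, Pool.Agent.P5e96.mval c A = B := by
  have hs : ∀ σ : Equiv.Perm (Fin (0 + 1)), σ = 1 := fun σ =>
    Equiv.ext fun i => Subsingleton.elim (α := Fin 1) _ _
  have h1 : c 1 ≠ 0 := by
    intro h
    refine hc (funext fun σ => ?_)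
    rw [hs σ, h]
    rfl
  refine ⟨fun _ => (c 1)⁻¹ • B, ?_⟩
  rw [Pool.Agent.P5e96.mval, Finset.sum_eq_single 1 (fun σ _ h => absurd (hs σ) h)
    (fun h => absurd (Finset.mem_univ _) h)]
  simp [smul_smul, h1]

/-- Over finite fields: the first monomial can be any monomial. -/
theorem finite_case (r : ℕ) (hr : 1 ≤ r) : ∃ N : ℕ, ∀ n ≥ N, ∀ (K : Type u) [Field K] [Finite K]
    (c : Equiv.Perm (Fin (r + 1)) → K), c ≠ 0 → ∀ T : Matrix (Fin n) (Fin n) K,
      (∀ μ : K, T ≠ μ • 1) → (T.trace = 0 ∨ ¬ Pool.Agent.P5m.Cs c) →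
        ∃ A : Fin (r + 1) → Matrix (Fin n) (Fin n) K, Pool.Agent.P5e96.mval c A = T := by
  obtain ⟨N, hN⟩ := Pool.Agent.P5f.fin_value.{u} r hr
  refine ⟨N, fun n hn K _ _ c hc T hT hT0 => ?_⟩
  obtain ⟨σ₀, hσ₀⟩ := Function.ne_iff.1 hc
  obtain ⟨A, hA⟩ := hN n hn K (fun τ => c (σ₀ * τ)) (by simpa using hσ₀) T hT
    (hT0.imp id fun h h' => h (Pool.Agent.P5m.cs_of_shift c σ₀ h'))
  exact ⟨fun q => A (σ₀.symm q), by rw [Pool.Agent.P5m.mval_shift]; exact hA⟩

/-- Let `m ≥ 1`. There is `N` such that for all `n ≥ N`, all fields `K` and all nonzero multilinear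
polynomials `f` of degree `m` over `K`: every `n × n` matrix of trace zero is a value of `f`; and if
`f` has a value of nonzero trace on `M_n(K)`, then every non-scalar matrix is a value of `f`, and
every matrix is a value of `f` if `K` is algebraically closed. -/
theorem result (m : ℕ) (hm : 1 ≤ m) :
    ∃ N : ℕ, ∀ n : ℕ, N ≤ n → ∀ (K : Type u) [Field K] (f : FreeAlgebra K (Fin m)),
      (∃ c : Equiv.Perm (Fin m) → K,
        f = ∑ σ : Equiv.Perm (Fin m),
          c σ • (List.ofFn (fun i : Fin m => FreeAlgebra.ι K (σ i))).prod) →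
      f ≠ 0 →
      (∀ B : Matrix (Fin n) (Fin n) K, B.trace = 0 →
        ∃ A : Fin m → Matrix (Fin n) (Fin n) K, FreeAlgebra.lift K A f = B) ∧
      ((∃ A : Fin m → Matrix (Fin n) (Fin n) K, (FreeAlgebra.lift K A f).trace ≠ 0) →
        (∀ B : Matrix (Fin n) (Fin n) K, (∀ μ : K, B ≠ μ • (1 : Matrix (Fin n) (Fin n) K)) →
          ∃ A : Fin m → Matrix (Fin n) (Fin n) K, FreeAlgebra.lift K A f = B) ∧
        (IsAlgClosed K → ∀ B : Matrix (Fin n) (Fin n) K,
          ∃ A : Fin m → Matrix (Fin n) (Fin n) K, FreeAlgebra.lift K A f = B)) := by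
  obtain ⟨r, rfl⟩ : ∃ r, m = r + 1 := ⟨m - 1, by omega⟩
  rcases Nat.eq_zero_or_pos r with rfl | hr
  · refine ⟨0, fun n _ K _ f hf hf0 => ?_⟩
    obtain ⟨c, rfl⟩ := hf
    have hc : c ≠ 0 := by
      rintro rfl
      exact hf0 (by simp)
    have key : ∀ B : Matrix (Fin n) (Fin n) K,
        ∃ A : Fin (0 + 1) → Matrix (Fin n) (Fin n) K, FreeAlgebra.lift K A
          (∑ σ : Equiv.Perm (Fin (0 + 1)),
            c σ • (List.ofFn (fun i : Fin (0 + 1) => FreeAlgebra.ι K (σ i))).prod) = B := by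
      intro B
      obtain ⟨A, hA⟩ := degree_one c hc B
      exact ⟨A, by rw [lift_eq, hA]⟩
    exact ⟨fun B _ => key B, fun _ => ⟨fun B _ => key B, fun _ B => key B⟩⟩
  · obtain ⟨N₁, h₁⟩ := Pool.Agent.P5q.value_trace2.{u} r
    obtain ⟨N₂, h₂⟩ := Pool.Agent.P5q.value_all2.{u} r hr
    obtain ⟨N₃, h₃⟩ := finite_case.{u} r hr
    obtain ⟨N₄, h₄⟩ := Pool.Agent.P5q.scal_final.{u} r
    refine ⟨N₁ + N₂ + N₃ + N₄, fun n hn K _ f hf hf0 => ?_⟩
    obtain ⟨c, rfl⟩ := hf
    have hc : c ≠ 0 := by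
      rintro rfl
      exact hf0 (by simp)
    simp only [lift_eq]
    have htriv : ∃ A : Fin (r + 1) → Matrix (Fin n) (Fin n) K,
        Pool.Agent.P5e96.mval c A = 0 := by
      refine ⟨fun _ => 0, ?_⟩
      rw [Pool.Agent.P5e96.mval]
      refine Finset.sum_eq_zero fun σ _ => ?_
      rw [List.ofFn_succ, List.prod_cons, zero_mul, smul_zero]
    -- non-scalar matrices of trace zero
    have hns0 : ∀ B : Matrix (Fin n) (Fin n) K, (∀ μ : K, B ≠ μ • 1) → B.trace = 0 →
        ∃ A : Fin (r + 1) → Matrix (Fin n) (Fin n) K, Pool.Agent.P5e96.mval c A = B := by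
      intro B hs hB
      rcases finite_or_infinite K with hK | hK
      · exact h₃ n (by omega) K c hc B hs (Or.inl hB)
      · by_cases h : ∃ A : Fin (r + 1) → Matrix (Fin n) (Fin n) K,
          (Pool.Agent.P5e96.mval c A).trace ≠ 0
        · exact (h₂ n (by omega) K c h).1 B hs
        · push Not at h
          exact h₁ n (by omega) K c hc h B hs hB
    refine ⟨fun B hB => ?_, fun h => ?_⟩
    · by_cases hs : ∀ μ : K, B ≠ μ • (1 : Matrix (Fin n) (Fin n) K)
      · exact hns0 B hs hB
      · push Not at hs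
        obtain ⟨μ, rfl⟩ := hs
        rw [Matrix.trace_smul, Matrix.trace_one, Fintype.card_fin, smul_eq_mul] at hB
        rcases mul_eq_zero.1 hB with h0 | h0
        · rw [h0, zero_smul]
          exact htriv
        · exact h₄ n (by omega) K c hc h0 μ
    · have hcs : ¬ Pool.Agent.P5m.Cs c := by
        obtain ⟨A, hA⟩ := h
        exact fun h' => hA (Pool.Agent.P5q.trace_of_cs2 c h' A)
      have hns : ∀ B : Matrix (Fin n) (Fin n) K, (∀ μ : K, B ≠ μ • 1) →
          ∃ A : Fin (r + 1) → Matrix (Fin n) (Fin n) K, Pool.Agent.P5e96.mval c A = B := by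
        intro B hs
        rcases finite_or_infinite K with hK | hK
        · exact h₃ n (by omega) K c hc B hs (Or.inr hcs)
        · exact (h₂ n (by omega) K c h).1 B hs
      refine ⟨hns, fun hK B => ?_⟩
      by_cases hs : ∀ μ : K, B ≠ μ • (1 : Matrix (Fin n) (Fin n) K)
      · exact hns B hs
      · push Not at hs
        obtain ⟨μ, rfl⟩ := hs
        have : Infinite K := IsAlgClosed.instInfinite
        exact (h₂ n (by omega) K c h).2 hK μ

end Pool.Agent.Results.MP_5e96a2_al.AllFields
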