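import Mathlib
import Pool.Agent.Lib.P5e96.UBMain

/-!
# Trace-zero matrices away from the nonzero scalar matrices, for all multilinear polynomials that
are no identities of the block upper triangular matrices

`K` is any infinite field, `f` is any nonzero multilinear polynomial of degree `m`, and `s ≥ 1`. If
`m ≤ 4s - 1`, or if `f` is no identity of the algebra `UT(s, s)` of all `2s × 2s` matrices over `K`
whose lower left `s × s` block is zero (for instance if `f` is no identity of the algebra of `s × s`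
matrices), and if `n ≥ 3 r s`, `r ≥ 2`, `n ≥ 6 s + 4`, then every trace-zero `n × n` matrix `B` over
`K` with `rank (B - c) ≥ ⌈n / r⌉ - 1` for all nonzero scalars `c` is a value of `f` on `M_n(K)`.
-/

namespace Pool.Agent.Results.MP_5e96a2_al.AwayBlock

open Matrix

theorem lift_eq {K : Type*} [Field K] {m : ℕ} {ι : Type*} [Fintype ι] [DecidableEq ι]
    (c : Equiv.Perm (Fin m) → K) (A : Fin m → Matrix ι ι K) :
    FreeAlgebra.lift K A (∑ σ : Equiv.Perm (Fin m),
      c σ • (List.ofFn (fun i : Fin m => FreeAlgebra.ι K (σ i))).prod) =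
      Pool.Agent.P5e96.mval c A := by
  rw [Pool.Agent.P5e96.mval, map_sum]
  refine Finset.sum_congr rfl fun σ _ => ?_
  rw [map_smul, map_list_prod, List.map_ofFn]
  congr 2
  simp [Function.comp_def]

/-- Let `K` be an infinite field, `f` a nonzero multilinear polynomial of degree `m ≥ 1` over `K`,
`s ≥ 1`, `r ≥ 2`, `n ≥ 3 r s` and `n ≥ 6 s + 4`. Suppose that `m ≤ 4s - 1` or that `f` has a
nonzero value on the `2s × 2s` matrices over `K` with lower left `s × s` block zero. Every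
trace-zero `n × n` matrix `B` over `K` such that `rank (B - c) ≥ ⌈n / r⌉ - 1` for all nonzero `c`
in `K` is a value of `f`. -/
theorem result (K : Type*) [Field K] [Infinite K] (n m s r : ℕ) (hm : 1 ≤ m) (hs1 : 1 ≤ s)
    (hr2 : 2 ≤ r) (hn1 : 3 * s * r ≤ n) (hn2 : 6 * s + 4 ≤ n)
    (f : FreeAlgebra K (Fin m))
    (hf : ∃ c : Equiv.Perm (Fin m) → K,
      f = ∑ σ : Equiv.Perm (Fin m),
        c σ • (List.ofFn (fun i : Fin m => FreeAlgebra.ι K (σ i))).prod)
    (hf0 : f ≠ 0)
    (hs : m + 1 ≤ 4 * s ∨ ∃ U : Fin m → Matrix (Fin s ⊕ Fin s) (Fin s ⊕ Fin s) K,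
      (∀ q i j, U q (Sum.inr i) (Sum.inl j) = 0) ∧ FreeAlgebra.lift K U f ≠ 0)
    (B : Matrix (Fin n) (Fin n) K) (hB : B.trace = 0)
    (hr : ∀ c : K, c ≠ 0 →
      (n + r - 1) / r ≤ (B - c • (1 : Matrix (Fin n) (Fin n) K)).rank + 1) :
    ∃ A : Fin m → Matrix (Fin n) (Fin n) K, FreeAlgebra.lift K A f = B := by
  obtain ⟨c, rfl⟩ := hf
  have hc : c ≠ 0 := by
    rintro rfl
    exact hf0 (by simp)
  have hk' : Pool.Agent.P5e96.NotBlk c s := by
    rcases hs with hk | ⟨U, hU, hne⟩
    · exact Or.inl hk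
    · exact Or.inr ⟨U, hU, by rwa [← lift_eq]⟩
  obtain ⟨A, hA⟩ := Pool.Agent.P5e96.value_away_ub hm c hc s hs1 hk' hr2 hn1 hn2 B hB hr
  exact ⟨A, by rw [lift_eq, hA]⟩

end Pool.Agent.Results.MP_5e96a2_al.AwayBlock
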