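import Mathlib
import Pool.Agent.Lib.P5e96.UXValues

/-!
# Nonderogatory trace-zero matrices

`K` is any infinite field, `f` is any nonzero multilinear polynomial of degree `m`. Every
trace-zero `n × n` matrix over `K` with a cyclic vector is a value of `f` on `M_n(K)` in each of the
following cases:
* `f` is neither an identity nor central for the `s × s` matrices over `K`, and `n ≥ 2s + 1`;
* `m ≤ 4s - 1` or `f` is no identity of the `2s × 2s` matrices over `K` with lower left `s × s`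
  block zero, and `n ≥ 3s`;
* `m ≤ 2k - 1` or `f` is no identity of the upper triangular `k × k` matrices over `K`, and
  `n ≥ 3k / 2`, `k ≥ 2`.
-/

namespace Pool.Agent.Results.MP_5e96a2_al.CyclicBlock

open Matrix

theorem lift_eq {K : Type*} [Field K] {m : ℕ} {ι : Type*} [Fintype ι] [DecidableEq ι]
    (c : Equiv.Perm (Fin m) → K) (A : Fin m → Matrix ι ι K) :
    FreeAlgebra.lift K A (∑ σ : Equiv.Perm (Fin m),
      c σ • (List.ofFn (fun i : Fin m => FreeAlgebra.ι K (σ i))).prod) =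
      Pool.Agent.P5e96.mval c A := by
  rw [Pool.Agent.P5e96.mval, map_sum]
  refine Finset.sum_congr rfl fun σ _ => ?_
  rw [map_smul, map_list_prod, List.map_ofFn]
  congr 2
  simp [Function.comp_def]

/-- Let `K` be an infinite field and `f` a nonzero multilinear polynomial of degree `m ≥ 1` over
`K`. Suppose that
* `f` has a non-scalar value on the `s × s` matrices over `K`, for some `s` with `2 s + 1 ≤ n`, or
* `m ≤ 4s - 1` or `f` has a nonzero value on the `2s × 2s` matrices over `K` with lower left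
  `s × s` block zero, for some `s` with `3 s ≤ n`, or
* `m ≤ 2k - 1` or `f` has a nonzero value on the upper triangular `k × k` matrices over `K`, for
  some `k ≥ 2` with `3 k ≤ 2 n`.
Every trace-zero `n × n` matrix `B` over `K` having a vector `v` with
`v, B v, ..., B ^ (n - 1) v` linearly independent is a value of `f`. -/
theorem result (K : Type*) [Field K] [Infinite K] (n m : ℕ) (hm : 1 ≤ m)
    (f : FreeAlgebra K (Fin m))
    (hf : ∃ c : Equiv.Perm (Fin m) → K,
      f = ∑ σ : Equiv.Perm (Fin m),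
        c σ • (List.ofFn (fun i : Fin m => FreeAlgebra.ι K (σ i))).prod)
    (hf0 : f ≠ 0)
    (hk : (∃ s : ℕ, 2 * s + 1 ≤ n ∧ ∃ U : Fin m → Matrix (Fin s) (Fin s) K,
        ∀ c : K, FreeAlgebra.lift K U f ≠ c • (1 : Matrix (Fin s) (Fin s) K)) ∨
      (∃ s : ℕ, 3 * s ≤ n ∧
        (m + 1 ≤ 4 * s ∨ ∃ U : Fin m → Matrix (Fin s ⊕ Fin s) (Fin s ⊕ Fin s) K,
          (∀ q i j, U q (Sum.inr i) (Sum.inl j) = 0) ∧ FreeAlgebra.lift K U f ≠ 0)) ∨
      ∃ k : ℕ, 2 ≤ k ∧ 3 * k ≤ 2 * n ∧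
        (m + 1 ≤ 2 * k ∨ ∃ U : Fin m → Matrix (Fin k) (Fin k) K,
          (∀ q i j, j < i → U q i j = 0) ∧ FreeAlgebra.lift K U f ≠ 0))
    (B : Matrix (Fin n) (Fin n) K) (hB : B.trace = 0)
    (v : Fin n → K) (hv : LinearIndependent K fun i : Fin n => (B ^ (i : ℕ)) *ᵥ v) :
    ∃ A : Fin m → Matrix (Fin n) (Fin n) K, FreeAlgebra.lift K A f = B := by
  obtain ⟨c, rfl⟩ := hf
  have hc : c ≠ 0 := by
    rintro rfl
    exact hf0 (by simp)
  rcases hk with ⟨s, hs, U, hU⟩ | ⟨s, hs, hk⟩ | ⟨k, hk2, hn, hk⟩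
  · obtain ⟨A, hA⟩ := Pool.Agent.P5e96.value_of_cyclic_uc hm c s U
      (fun d => by rw [← lift_eq]; exact hU d) hs B hB v hv
    exact ⟨A, by rw [lift_eq, hA]⟩
  · have hk' : Pool.Agent.P5e96.NotBlk c s := by
      rcases hk with hk | ⟨U, hU, hne⟩
      · exact Or.inl hk
      · exact Or.inr ⟨U, hU, by rwa [← lift_eq]⟩
    obtain ⟨A, hA⟩ := Pool.Agent.P5e96.value_of_cyclic_ub hm c hc s hk' hs B hB v hv
    exact ⟨A, by rw [lift_eq, hA]⟩
  · have hk' : Pool.Agent.P5e96.NotUT c k := by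
      rcases hk with hk | ⟨U, hU, hne⟩
      · exact Or.inl hk
      · exact Or.inr ⟨U, hU, by rwa [← lift_eq]⟩
    obtain ⟨A, hA⟩ := Pool.Agent.P5e96.value_of_cyclic_ut hm c hc k hk' hk2 hn B hB v hv
    exact ⟨A, by rw [lift_eq, hA]⟩

end Pool.Agent.Results.MP_5e96a2_al.CyclicBlock
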