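import Mathlib
import Pool.Agent.Lib.P5e96.UBMain
import Pool.Agent.Lib.P5e96.UTUpper

/-!
# Nilpotent matrices and matrices similar to their negative, for all multilinear polynomials that
are no identities of the block upper triangular matrices

`K` is any infinite field and `f` is any nonzero multilinear polynomial of degree `m`. Let
`2 * s ≤ n`. If `m ≤ 4s - 1`, or if `f` is no identity of the algebra `UT(s, s)` of all
`2s × 2s` matrices over `K` whose lower left `s × s` block is zero (for instance if `f` is no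
identity of the algebra of `s × s` matrices), then every nilpotent `n × n` matrix over `K` and, if
the characteristic of `K` is not `2`, every `n × n` matrix `B` over `K` that is similar to `-B`, is
a value of `f` on `M_n(K)`. If `m ≤ 2n - 1` or if `f` is no identity of the algebra of upper
triangular `n × n` matrices, then every matrix `B` with `B ^ 2 = 0` is a value of `f`.
-/

namespace Pool.Agent.Results.MP_5e96a2_al.SymmetricBlock

theorem lift_eq {K : Type*} [Field K] {m : ℕ} {ι : Type*} [Fintype ι] [DecidableEq ι]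
    (c : Equiv.Perm (Fin m) → K) (A : Fin m → Matrix ι ι K) :
    FreeAlgebra.lift K A (∑ σ : Equiv.Perm (Fin m),
      c σ • (List.ofFn (fun i : Fin m => FreeAlgebra.ι K (σ i))).prod) =
      Pool.Agent.P5e96.mval c A := by
  rw [Pool.Agent.P5e96.mval, map_sum]
  refine Finset.sum_congr rfl fun σ _ => ?_
  rw [map_smul, map_list_prod, List.map_ofFn]
  congr 2
  simp [Function.comp_def]

/-- Let `K` be an infinite field, `f` a nonzero multilinear polynomial of degree `m ≥ 1` over
`K` and `n ≥ 2`. Let `B` be an `n × n` matrix over `K` such that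
* `B ^ 2 = 0`, and `m ≤ 2n - 1` or `f` has a nonzero value on upper triangular `n × n` matrices, or
* `B` is nilpotent or, if `2 ≠ 0` in `K`, similar to `-B`, and for some `s` with `2 s ≤ n`: `m ≤
  4s - 1` or `f` has a nonzero value on the `2s × 2s` matrices with lower left `s × s` block zero.
Then `B` is a value of `f`. -/
theorem result (K : Type*) [Field K] [Infinite K] (n m : ℕ) (hm : 1 ≤ m) (hn2 : 2 ≤ n)
    (f : FreeAlgebra K (Fin m))
    (hf : ∃ c : Equiv.Perm (Fin m) → K,
      f = ∑ σ : Equiv.Perm (Fin m),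
        c σ • (List.ofFn (fun i : Fin m => FreeAlgebra.ι K (σ i))).prod)
    (hf0 : f ≠ 0)
    (B : Matrix (Fin n) (Fin n) K)
    (hB : (B * B = 0 ∧ (m + 1 ≤ 2 * n ∨ ∃ U : Fin m → Matrix (Fin n) (Fin n) K,
        (∀ q i j, j < i → U q i j = 0) ∧ FreeAlgebra.lift K U f ≠ 0)) ∨
      ((IsNilpotent B ∨
        ((2 : K) ≠ 0 ∧ ∃ g : Matrix (Fin n) (Fin n) K, IsUnit g ∧ g * B = -B * g)) ∧
        ∃ s : ℕ, 2 * s ≤ n ∧
          (m + 1 ≤ 4 * s ∨ ∃ U : Fin m → Matrix (Fin s ⊕ Fin s) (Fin s ⊕ Fin s) K,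
            (∀ q i j, U q (Sum.inr i) (Sum.inl j) = 0) ∧ FreeAlgebra.lift K U f ≠ 0))) :
    ∃ A : Fin m → Matrix (Fin n) (Fin n) K, FreeAlgebra.lift K A f = B := by
  obtain ⟨c, rfl⟩ := hf
  have hc : c ≠ 0 := by
    rintro rfl
    exact hf0 (by simp)
  rcases hB with ⟨hBB, hk⟩ | ⟨hB, s, hs, hk⟩
  · have hk' : Pool.Agent.P5e96.NotUT c n := by
      rcases hk with hk | ⟨U, hU, hne⟩
      · exact Or.inl hk
      · exact Or.inr ⟨U, hU, by rwa [← lift_eq]⟩
    obtain ⟨A, hA⟩ := Pool.Agent.P5e96.value_sq_zero_ut hm c hc n hk' hn2 le_rfl B hBB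
    exact ⟨A, by rw [lift_eq, hA]⟩
  have hk' : Pool.Agent.P5e96.NotBlk c s := by
    rcases hk with hk | ⟨U, hU, hne⟩
    · exact Or.inl hk
    · exact Or.inr ⟨U, hU, by rwa [← lift_eq]⟩
  have key : Pool.Agent.P5e96.Bal (Matrix.toLin' B) := by
    rcases hB with hB | ⟨h2, g, hg, hgB⟩
    · refine Pool.Agent.P5e96.bal_of_nilpotent _ (Matrix.toLin' B) rfl ?_
      obtain ⟨l, hl⟩ := hB
      refine ⟨l, ?_⟩
      rw [← Matrix.toLin'_pow, hl, map_zero]
    · obtain ⟨g', hg'⟩ := hg
      have h1 : g * (↑g'⁻¹ : Matrix (Fin n) (Fin n) K) = 1 := by rw [← hg']; exact g'.mul_inv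
      have h1' : (↑g'⁻¹ : Matrix (Fin n) (Fin n) K) * g = 1 := by rw [← hg']; exact g'.inv_mul
      refine Pool.Agent.P5e96.bal_of_conj_neg h2 (Matrix.toLin' B)
        (Matrix.toLin'OfInv h1' h1) (fun w => ?_)
      change Matrix.mulVec g (Matrix.mulVec B w) = -Matrix.mulVec B (Matrix.mulVec g w)
      rw [Matrix.mulVec_mulVec, hgB, Matrix.mulVec_mulVec, Matrix.neg_mul, Matrix.neg_mulVec]
  obtain ⟨A, hA⟩ := Pool.Agent.P5e96.value_of_bal_ub hm c hc s hk' hs B key
  exact ⟨A, by rw [lift_eq, hA]⟩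

end Pool.Agent.Results.MP_5e96a2_al.SymmetricBlock
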